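import Pool.Agent.P.MP_222ec5_nt.Main

set_option autoImplicit false

namespace Pool.Agent.Results.MP_222ec5_nt.Excess

/-- For every `n ≥ 3` and every `κ < 8 √π e^(-3/4) = 6.6979...` there are admissible `n`-tuples
with arbitrarily large height `H = max |a i|` and
`H > R ^ (2 n - 5) * exp (κ √((2 n - 5) log H) / log log H)`, `R` the radical of the product. -/
theorem result (n : ℕ) (hn : 3 ≤ n) (κ : ℝ) (hκ : κ < 8 * √Real.pi * Real.exp (-3 / 4)) (M : ℕ) :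
    ∃ (a : Fin n → ℤ) (H R : ℕ), ∑ i, a i = 0 ∧ Finset.gcd Finset.univ a = 1 ∧
      (∀ S : Finset (Fin n), S.Nonempty → S ≠ Finset.univ → ∑ i ∈ S, a i ≠ 0) ∧
      H = (Finset.univ.sup fun i => (a i).natAbs) ∧
      R = ∏ p ∈ (∏ i, a i).natAbs.primeFactors, p ∧ M < H ∧
      (R : ℝ) ^ (2 * n - 5) *
        Real.exp (κ * √((2 * (n : ℝ) - 5) * Real.log H) / Real.log (Real.log H)) < H := by
  obtain ⟨k, rfl⟩ : ∃ k, n = k + 2 + 1 := ⟨n - 3, by omega⟩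
  obtain ⟨t, h1, h2, h3, h4⟩ := Pool.Agent.P.MP_222ec5_nt.main k κ hκ M
  obtain ⟨h5, h6⟩ := h4 _ _ rfl rfl
  refine ⟨t, _, _, h1, h2, h3, rfl, rfl, h5, ?_⟩
  rw [show 2 * (k + 2 + 1) - 5 = 2 * k + 1 by omega,
    show 2 * ((k + 2 + 1 : ℕ) : ℝ) - 5 = ((2 * k + 1 : ℕ) : ℝ) by push_cast; ring]
  exact h6

end Pool.Agent.Results.MP_222ec5_nt.Excess
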