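import Pool.Agent.P.MP_222ec5_nt.Ten

set_option autoImplicit false

namespace Pool.Agent.Results.MP_222ec5_nt.TenTerms

/-- For `n = 10` and every `ε > 0` infinitely many admissible integer `n`-tuples have
`ln max |a i| / ln rad (∏ a i) > 16 - ε`, while `2 n - 5 = 15`. -/
theorem result (ε : ℝ) (hε : 0 < ε) :
    {a : Fin 10 → ℤ | ∑ i, a i = 0 ∧ Finset.gcd Finset.univ a = 1 ∧
      (∀ S : Finset (Fin 10), S.Nonempty → S ≠ Finset.univ → ∑ i ∈ S, a i ≠ 0) ∧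
      16 - ε < Real.log ((Finset.univ.sup fun i => (a i).natAbs : ℕ) : ℝ) /
        Real.log ((∏ p ∈ (∏ i, a i).natAbs.primeFactors, p : ℕ) : ℝ)}.Infinite := by
  refine (Pool.Agent.P.MP_222ec5_nt.Ten.main (16 - ε) (by linarith)).mono ?_
  rintro a ⟨h1, h2, h3, h4⟩
  exact ⟨h3, h1, h2, h4⟩

end Pool.Agent.Results.MP_222ec5_nt.TenTerms
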