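import Pool.Agent.P.MP_7aad9f_nt.TR.Final

set_option autoImplicit false

namespace Pool.Agent.Results.MP_222ec5_nt.TwoRadicals

/-- For every `ε > 0` there is `C` such that the coprime pairs `(x, y)` of nonzero integers whose
primes divide `n` and whose nonzero sum has radical at most `Y` number at most `C * (n Y) ^ ε`. -/
theorem result : ∀ ε : ℝ, 0 < ε → ∃ C : ℝ, ∀ (n Y : ℕ) (S : Finset (ℤ × ℤ)), 1 ≤ n →
    (∀ P ∈ S, P.1 ≠ 0 ∧ P.2 ≠ 0 ∧ P.1 + P.2 ≠ 0 ∧ IsCoprime P.1 P.2 ∧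
      (P.1 * P.2).natAbs.primeFactors ⊆ n.primeFactors ∧
      ∏ p ∈ (P.1 + P.2).natAbs.primeFactors, p ≤ Y) →
    (S.card : ℝ) ≤ C * ((n : ℝ) * Y) ^ ε :=
  Pool.Agent.P.MP_7aad9f_nt.TR.main

end Pool.Agent.Results.MP_222ec5_nt.TwoRadicals
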